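import Pool.Agent.Helper44.GF.Defs

/-!
# MP_d210aa_gt: module LOGC (log-concavity of `GG`)
-/

set_option autoImplicit false

open Finset MeasureTheory Filter Topology
open scoped ENNReal ContDiff

namespace Pool.Agent.Helper44.GF

section abstract

variable {K : Type} [Fintype K]

/-- weights -/
noncomputable def logc_w (Z A B C : K → ℝ) (t : ℝ) (k : K) : ℝ :=
  Z k * Real.exp (-(A k + 2 * t * B k + t ^ 2 * C k))

omit [Fintype K] in
theorem logc_w_deriv (Z A B C : K → ℝ) (t : ℝ) (k : K) :
    HasDerivAt (fun t => logc_w Z A B C t k) (logc_w Z A B C t k * (-2 * (B k + t * C k))) t := by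
  unfold logc_w
  have h1 : HasDerivAt (fun t : ℝ => -(A k + 2 * t * B k + t ^ 2 * C k))
      (-(2 * B k + 2 * t * C k)) t := by
    have h2 : HasDerivAt (fun t : ℝ => 2 * t * B k) (2 * B k) t := by
      have := ((hasDerivAt_id t).const_mul 2).mul_const (B k)
      simpa using this
    have h3 : HasDerivAt (fun t : ℝ => t ^ 2 * C k) (2 * t * C k) t := by
      have := (hasDerivAt_pow 2 t).mul_const (C k)
      simpa using this
    have h4 := ((h2.const_add (A k)).add h3).neg
    exact h4
  have h5 := (h1.exp).const_mul (Z k)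
  have e : Z k * Real.exp (-(A k + 2 * t * B k + t ^ 2 * C k)) * (-2 * (B k + t * C k)) =
      Z k * (Real.exp (-(A k + 2 * t * B k + t ^ 2 * C k)) * -(2 * B k + 2 * t * C k)) := by ring
  rw [e]
  exact h5

theorem logc_abs [Nonempty K] (Z A B C : K → ℝ) (hZ : ∀ k, 0 < Z k)
    (hV : ∀ t : ℝ, (∑ k, logc_w Z A B C t k) * (∑ k, logc_w Z A B C t k * (B k + t * C k) ^ 2) -
      (∑ k, logc_w Z A B C t k * (B k + t * C k)) ^ 2 ≤
      1 / 2 * (∑ k, logc_w Z A B C t k) * ∑ k, logc_w Z A B C t k * C k)
    (l l' : ℝ) (hl : 0 < l) (hl' : 0 < l') (hll : l + l' = 1) :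
    (∑ k, logc_w Z A B C 0 k) ^ l * (∑ k, logc_w Z A B C 1 k) ^ l' ≤
      ∑ k, logc_w Z A B C l' k := by
  set g : ℝ → ℝ := fun t => ∑ k, logc_w Z A B C t k with hg
  set g1 : ℝ → ℝ := fun t => ∑ k, logc_w Z A B C t k * (-2 * (B k + t * C k)) with hg1
  set g2 : ℝ → ℝ := fun t => ∑ k, (logc_w Z A B C t k * (-2 * (B k + t * C k)) *
    (-2 * (B k + t * C k)) + logc_w Z A B C t k * (-2 * C k)) with hg2
  have hw : ∀ t k, 0 < logc_w Z A B C t k := fun t k => mul_pos (hZ k) (Real.exp_pos _)
  have hgpos : ∀ t, 0 < g t := fun t => Finset.sum_pos (fun k _ => hw t k) univ_nonempty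
  have hgd : ∀ t, HasDerivAt g (g1 t) t := by
    intro t
    have := HasDerivAt.fun_sum (u := (univ : Finset K))
      (A := fun k t => logc_w Z A B C t k)
      (A' := fun k => logc_w Z A B C t k * (-2 * (B k + t * C k))) (x := t)
      (fun k _ => logc_w_deriv Z A B C t k)
    exact this
  have hg1d : ∀ t, HasDerivAt g1 (g2 t) t := by
    intro t
    have := HasDerivAt.fun_sum (u := (univ : Finset K))
      (A := fun k t => logc_w Z A B C t k * (-2 * (B k + t * C k)))
      (A' := fun k => logc_w Z A B C t k * (-2 * (B k + t * C k)) * (-2 * (B k + t * C k)) +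
        logc_w Z A B C t k * (-2 * C k)) (x := t) (by
        intro k _
        have h1 : HasDerivAt (fun t : ℝ => -2 * (B k + t * C k)) (-2 * C k) t := by
          have := (((hasDerivAt_id t).mul_const (C k)).const_add (B k)).const_mul (-2)
          simpa using this
        exact (logc_w_deriv Z A B C t k).mul h1)
    exact this
  have hlog : ∀ t, HasDerivAt (fun t => Real.log (g t)) (g1 t / g t) t :=
    fun t => (hgd t).log (hgpos t).ne'
  have hlog2 : ∀ t, HasDerivAt (fun t => g1 t / g t) ((g2 t * g t - g1 t * g1 t) / g t ^ 2) t :=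
    fun t => (hg1d t).div (hgd t) (hgpos t).ne'
  have hd1 : deriv (fun t => Real.log (g t)) = fun t => g1 t / g t := by
    funext t
    exact (hlog t).deriv
  have hconc : ConcaveOn ℝ Set.univ (fun t => Real.log (g t)) := by
    apply concaveOn_univ_of_deriv2_nonpos
    · exact fun t => (hlog t).differentiableAt
    · rw [hd1]
      exact fun t => (hlog2 t).differentiableAt
    · intro t
      rw [Function.iterate_succ, Function.iterate_one, Function.comp_apply, hd1, (hlog2 t).deriv]
      apply div_nonpos_of_nonpos_of_nonneg _ (sq_nonneg _)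
      have h1 := hV t
      have e1 : g1 t = -2 * ∑ k, logc_w Z A B C t k * (B k + t * C k) := by
        simp only [hg1]
        rw [Finset.mul_sum]
        exact Finset.sum_congr rfl (fun k _ => by ring)
      have e2 : g2 t = 4 * (∑ k, logc_w Z A B C t k * (B k + t * C k) ^ 2) -
          2 * ∑ k, logc_w Z A B C t k * C k := by
        simp only [hg2]
        rw [Finset.mul_sum, Finset.mul_sum, ← Finset.sum_sub_distrib]
        exact Finset.sum_congr rfl (fun k _ => by ring)
      have e3 : ∑ k, logc_w Z A B C t k = g t := rfl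
      rw [e3] at h1
      rw [e1, e2]
      linarith
  have h2 := hconc.2 (Set.mem_univ (0 : ℝ)) (Set.mem_univ (1 : ℝ)) hl.le hl'.le hll
  simp only [smul_eq_mul, mul_zero, mul_one, zero_add] at h2
  have e0 : (∑ k, logc_w Z A B C 0 k) = g 0 := rfl
  have e1 : (∑ k, logc_w Z A B C 1 k) = g 1 := rfl
  have e2 : (∑ k, logc_w Z A B C l' k) = g l' := rfl
  rw [e0, e1, e2, Real.rpow_def_of_pos (hgpos 0), Real.rpow_def_of_pos (hgpos 1), ← Real.exp_add,
    ← Real.exp_log (hgpos l')]
  apply Real.exp_le_exp.2
  linarith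

end abstract

/-- LOGC -/
theorem st_LOGC (hVARM : ST_VARM) : ST_LOGC := by
  intro n m Y ι _ _ _ S r z d s hMH ξ ξ' l l' hl hl' hll
  set e : ι → ℝ := fun I => ξ' I - ξ I with he
  set Z : Finset (Fin n × Y) → ℝ := fun η => ∏ x ∈ η, z x.2 with hZ
  set A : Finset (Fin n × Y) → ℝ := fun η => pol S (fun I => ξ I ^ 2) (tau d r η) with hA
  set B : Finset (Fin n × Y) → ℝ := fun η => pol S (fun I => ξ I * e I) (tau d r η) with hB
  set C : Finset (Fin n × Y) → ℝ := fun η => pol S (fun I => e I ^ 2) (tau d r η) with hC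
  have hw : ∀ (t : ℝ) (η : Finset (Fin n × Y)),
      wt S (fun I => (ξ I + t * e I) ^ 2) d r z η = logc_w Z A B C t η := by
    intro t η
    unfold wt logc_w
    simp only [hZ, hA, hB, hC]
    congr 3
    unfold pol
    rw [Finset.mul_sum, Finset.mul_sum, ← Finset.sum_add_distrib, ← Finset.sum_add_distrib]
    apply Finset.sum_congr rfl
    intro I _
    ring
  have hf : ∀ (t : ℝ) (η : Finset (Fin n × Y)),
      pol S (fun I => (ξ I + t * e I) * e I) (tau d r η) = B η + t * C η := by
    intro t η
    simp only [hB, hC]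
    unfold pol
    rw [Finset.mul_sum, ← Finset.sum_add_distrib]
    apply Finset.sum_congr rfl
    intro I _
    ring
  have key := logc_abs Z A B C (fun η => Finset.prod_pos (fun x _ => hMH.hz x.2)) (by
    intro t
    have h := hVARM n m Y ι S r z d s hMH (fun I => ξ I + t * e I) e
    simp only [hw, hf] at h
    exact h) l l' hl hl' hll
  have h0 : GG S r z d ξ = ∑ η, logc_w Z A B C 0 η := by
    unfold GG
    apply Finset.sum_congr rfl
    intro η _
    rw [← hw 0 η]
    congr 1
    funext I
    ring
  have h1 : GG S r z d ξ' = ∑ η, logc_w Z A B C 1 η := by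
    unfold GG
    apply Finset.sum_congr rfl
    intro η _
    rw [← hw 1 η]
    congr 1
    funext I
    simp only [he]
    ring
  have h2 : GG S r z d (l • ξ + l' • ξ') = ∑ η, logc_w Z A B C l' η := by
    unfold GG
    apply Finset.sum_congr rfl
    intro η _
    rw [← hw l' η]
    congr 1
    funext I
    simp only [he, Pi.add_apply, Pi.smul_apply, smul_eq_mul]
    have : l = 1 - l' := by linarith
    rw [this]
    ring
  rw [h0, h1, h2]
  exact key

end Pool.Agent.Helper44.GF
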